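import Mathlib

namespace Pool.Agent.H.MP_15e54c_lc.A

open Set Topology Filter

abbrev G := ℕ → ZMod 2

def sl (x : G) (n : ℕ) : G := fun i => x (Nat.pair n i)

noncomputable def nd : ℕ → Σ k, Fin k → ZMod 2 := (exists_surjective_nat _).choose

noncomputable def φ (x : G) : G := fun i =>
  if i % 5 = 4 ∧ (fun j : Fin (nd (i / 5)).1 => x j) = (nd (i / 5)).2 then 1 else 0

lemma slc (n : ℕ) : Continuous (sl · n) := continuous_pi fun _ => continuous_apply _

lemma φc : Continuous φ := continuous_pi fun i =>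
  (continuous_of_discreteTopology (f := fun t : Fin (nd (i / 5)).1 → ZMod 2 =>
    if i % 5 = 4 ∧ t = (nd (i / 5)).2 then (1 : ZMod 2) else 0)).comp
      (continuous_pi fun _ => continuous_apply _)

lemma li : LinearIndependent (ZMod 2) φ := by
  classical
  refine linearIndependent_iff'.2 fun s g h x hx => ?_
  have : ∀ y : G, ∃ d, y d = x d → y = x := fun y => by
    by_contra! k
    exact (k 0).2 (funext fun d => (k d).1)
  choose d hd using this
  obtain ⟨m, hm⟩ := (exists_surjective_nat (Σ k, Fin k → ZMod 2)).choose_spec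
    ⟨s.sup d + 1, fun j => x j⟩
  have e : ∀ y ∈ s, φ y (5 * m + 4) = if y = x then 1 else 0 := fun y hy => by
    have h1 : (5 * m + 4) / 5 = m := by omega
    have h2 : nd m = ⟨s.sup d + 1, fun j => x j⟩ := hm
    unfold φ
    rw [h1, h2]
    refine if_congr ⟨fun k => hd y (congrFun k.2 ⟨d y, Nat.lt_succ_of_le (Finset.le_sup hy)⟩),
      fun k => ⟨by omega, by rw [k]⟩⟩ rfl rfl
  have := congrFun h (5 * m + 4)
  rw [Finset.sum_apply, Finset.sum_congr rfl fun y hy => by rw [Pi.smul_apply, e y hy]] at this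
  simpa [hx] using this

lemma fn (g : G → ZMod 2) : ∃ L : G →ₗ[ZMod 2] ZMod 2, ∀ x, L (φ x) = g x := by
  obtain ⟨L, hL⟩ := LinearMap.exists_extend ((Finsupp.linearCombination (ZMod 2) g).comp li.repr)
  refine ⟨L, fun x => ?_⟩
  have := LinearMap.congr_fun hL ⟨φ x, Submodule.subset_span ⟨x, rfl⟩⟩
  simp only [LinearMap.comp_apply, Submodule.subtype_apply] at this
  rw [this, li.repr_eq_single x _ rfl]
  simp

lemma two (p : G) : p + p = 0 := funext fun i => CharTwo.add_self_eq_zero (p i)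

lemma can {p q : G} (h : p + q = 0) : p = q := by
  rw [← add_zero p, ← two q, ← add_assoc, h, zero_add]

lemma mem2 {x y a b : G} (h : φ x + φ y = φ a + φ b) (k : x ≠ y) : x = a ∨ x = b := by
  classical
  obtain ⟨L, hL⟩ := fn fun z => if z = x then 1 else 0
  have := congrArg L h
  by_contra! l
  simp [hL, k.symm, l.1.symm, l.2.symm] at this

def C : Set G := ⋃ n, range fun x => φ x + φ (sl x n)

lemma unc : ¬ (univ : Set G).Countable := by
  rw [← Cardinal.le_aleph0_iff_set_countable]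
  simpa using Cardinal.aleph0_lt_continuum

lemma exH : ∃ H : Set G, ¬ H.Countable ∧ H.Pairwise fun p q => p + q ∈ C := by
  obtain ⟨S, hS⟩ := zorn_subset {S : Set G | S.Pairwise fun x y => ∃ n, y = sl x n ∨ x = sl y n}
    fun c hc hch => ⟨⋃₀ c, (pairwise_sUnion hch.directedOn).2 hc, fun s => subset_sUnion_of_mem⟩
  refine ⟨φ '' S, fun h => ?_, ?_⟩
  · have h1 := countable_of_injective_of_countable_image li.injective.injOn h
    obtain ⟨f, hf⟩ := (h1.insert 0).exists_eq_range (insert_nonempty _ _)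
    obtain ⟨w, hw⟩ : ∃ w, w ∉ (sl · 0) '' S := by
      by_contra! k
      exact unc ((h1.image _).mono fun w _ => k w)
    let z : G := fun i => (if i.unpair.1 = 0 then w else f (i.unpair.1 - 1)) i.unpair.2
    have hz : z ∈ S := by
      refine hS.2 (y := insert z S) (Set.Pairwise.insert hS.1
        fun y hy _ => ?_) (subset_insert _ _) (mem_insert _ _)
      obtain ⟨n, rfl⟩ := hf.le (mem_insert_of_mem _ hy)
      have : f n = sl z (n + 1) := funext fun i => by simp [sl, z]
      exact ⟨⟨n + 1, .inl this⟩, n + 1, .inr this⟩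
    exact hw ⟨z, hz, funext fun i => by simp [sl, z]⟩
  · rintro _ ⟨x, hx, rfl⟩ _ ⟨y, hy, rfl⟩ k
    obtain ⟨n, l | l⟩ := hS.1 hx hy fun l => k (by rw [l])
    · exact mem_iUnion.2 ⟨n, x, by rw [l]⟩
    · exact mem_iUnion.2 ⟨n, y, by rw [l, add_comm]⟩

lemma noP {P : Set G} (hP : Perfect P) (hne : P.Nonempty) :
    ¬ P.Pairwise fun p q => p + q ∈ C := fun h => by
  classical
  obtain ⟨o, ho⟩ := hne
  haveI : CompactSpace P := isCompact_iff_compactSpace.1 hP.closed.isCompact
  haveI : Nonempty P := ⟨⟨o, ho⟩⟩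
  let F : ℕ → Set (G × G) := fun n =>
    range fun z : G × G => (φ z.1 + φ z.2 + o, φ z.1 + φ (sl z.2 n) + o)
  have Fc : ∀ n, IsClosed (F n) := fun n => (isCompact_range (by
    have := φc; have := slc n; fun_prop)).isClosed
  have Ff : ∀ n p, p ≠ o → {q : P | (p, q.1) ∈ F n}.Finite := fun n p hp => by
    refine Finite.preimage (s := {q | (p, q) ∈ F n}) Subtype.val_injective.injOn ?_
    rcases eq_empty_or_nonempty {q | (p, q) ∈ F n} with l | ⟨_, ⟨a, b⟩, l⟩
    · rw [l]; exact finite_empty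
    refine (((toFinite {a, b}).prod (toFinite {a, b})).image
      fun z : G × G => φ z.1 + φ (sl z.2 n) + o).subset ?_
    rintro q ⟨⟨x, y⟩, k⟩
    have k1 : φ x + φ y + o = p := congrArg Prod.fst k
    have k2 : φ x + φ y = φ a + φ b := add_right_cancel (k1.trans (congrArg Prod.fst l).symm)
    have k3 : x ≠ y := fun e => hp (by rw [← k1, e, two, zero_add])
    exact ⟨(x, y), ⟨mem2 k2 k3, mem2 ((add_comm _ _).trans k2) k3.symm⟩, congrArg Prod.snd k⟩
  have hi : ∀ p : P, ∀ U ∈ 𝓝 p, U.Infinite := fun p U hU => by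
    obtain ⟨u, u1, u2⟩ := (mem_nhds_subtype _ _ _).1 hU
    refine Infinite.of_image Subtype.val
      ((Infinite.of_accPt ((hP.acc _ p.2).nhds_inter u1)).mono fun x hx => ⟨⟨x, hx.2⟩, u2 hx.1, rfl⟩)
  let A : ℕ × Bool → Set (P × P) := fun i => if i.2 then
    {z | (z.1.1, z.2.1) ∈ F i.1} ∪ ({z | z.1.1 = o} ∪ ({z | z.2.1 = o} ∪ {z | z.2 = z.1}))
    else {z | (z.2.1, z.1.1) ∈ F i.1}
  obtain ⟨⟨n, c⟩, z, hz⟩ := nonempty_interior_of_iUnion_of_closed (f := A) (by
    rintro ⟨n, _ | _⟩
    · exact (Fc n).preimage (by fun_prop)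
    · exact ((Fc n).preimage (by fun_prop)).union ((isClosed_eq (by fun_prop) (by fun_prop)).union
        ((isClosed_eq (by fun_prop) (by fun_prop)).union (isClosed_eq (by fun_prop) (by fun_prop)))))
    (by
    refine eq_univ_of_forall fun ⟨p, q⟩ => ?_
    by_cases h1 : p.1 = o
    · exact mem_iUnion.2 ⟨(0, true), .inr (.inl h1)⟩
    by_cases h2 : q.1 = o
    · exact mem_iUnion.2 ⟨(0, true), .inr (.inr (.inl h2))⟩
    by_cases h3 : q = p
    · exact mem_iUnion.2 ⟨(0, true), .inr (.inr (.inr h3))⟩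
    have h4 : p.1 ≠ q.1 := fun k => h3 (Subtype.ext k.symm)
    obtain ⟨_, ⟨_, rfl⟩, a, ha⟩ := h p.2 ho h1
    obtain ⟨_, ⟨_, rfl⟩, b, hb⟩ := h q.2 ho h2
    obtain ⟨_, ⟨n, rfl⟩, e, he⟩ := h p.2 q.2 h4
    simp only at ha hb he
    generalize sl a _ = a' at ha
    generalize sl b _ = b' at hb
    have key : ∀ p q x : G, φ e + φ (sl e n) = p + q → φ x + φ e = p + o → (p, q) ∈ F n :=
      fun p q x k l => ⟨(x, e), Prod.ext (can (by
        simp only [l]; rw [add_assoc p, two, add_zero, two])) (can (by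
        have := two (φ e); have := two p; have := two o; have := two q
        simp only; linear_combination k + l - two (φ e) + two p + two o + two q))⟩
    have h5 : e ≠ sl e n := fun k => h4 (can (by rw [← he, ← k, two]))
    by_contra k
    simp only [mem_iUnion, not_exists] at k
    obtain ⟨L, hL⟩ := fn fun z => if z = e then 1 else 0
    have h6 := congrArg L (show φ e + φ (sl e n) = φ a + φ a' + (φ b + φ b') by
      linear_combination he - ha - hb - two o)
    have e1 : a ≠ e := fun l => k (n, true) (.inl (key _ _ a' he (by rw [← ha, l, add_comm])))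
    have e2 : a' ≠ e := fun l => k (n, true) (.inl (key _ _ a he (by rw [← ha, l])))
    have e3 : b ≠ e := fun l => k (n, false) (key _ _ b' (he.trans (add_comm _ _))
      (by rw [← hb, l, add_comm]))
    have e4 : b' ≠ e := fun l => k (n, false) (key _ _ b (he.trans (add_comm _ _))
      (by rw [← hb, l]))
    simp [hL, h5.symm, e1, e2, e3, e4] at h6)
  obtain ⟨U, u1, V, v1, uv⟩ := mem_nhds_prod_iff.1 (mem_interior_iff_mem_nhds.1 hz)
  cases c
  · obtain ⟨q, q1, q2⟩ := (hi _ V v1).exists_notMem_finite (finite_singleton ⟨o, ho⟩)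
    exact hi _ U u1 ((Ff n q fun k => q2 (Subtype.ext k)).subset fun p hp => uv (a := (p, q)) ⟨hp, q1⟩)
  · obtain ⟨p, p1, p2⟩ := (hi _ U u1).exists_notMem_finite (finite_singleton ⟨o, ho⟩)
    refine hi _ V v1 ((((Ff n p fun k => p2 (Subtype.ext k)).insert p).insert ⟨o, ho⟩).subset
      fun q hq => ?_)
    rcases uv (a := (p, q)) ⟨p1, hq⟩ with l | l | l | l
    · exact .inr (.inr l)
    · exact (p2 (Subtype.ext l)).elim
    · exact .inl (Subtype.ext l)
    · exact .inr (.inl l)

end Pool.Agent.H.MP_15e54c_lc.A
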